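import Pool.Agent.Y716.C.Defs

/-!
# Real data of a class of systems

Job 4893 (poster helper716): `RealStmt` from `SlabLemma`.
-/

namespace Pool.Agent.Y43.C

open Pool.Agent.Y716.C Pool.Agent.Y716.Q

variable {ι : Type*} [Fintype ι]

/-- derivative of a polynomial along a line -/
theorem hasDerivAt_line (f : MvPolynomial ι ℤ) (y v : ι → ℝ) (t : ℝ) :
    HasDerivAt (fun t : ℝ => MvPolynomial.aeval (fun i => y i + t * v i) f)
      (∑ i, MvPolynomial.aeval (fun i => y i + t * v i) (MvPolynomial.pderiv i f) * v i) t := by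
  classical
  induction f using MvPolynomial.induction_on with
  | C a =>
    simp only [MvPolynomial.algHom_C, MvPolynomial.pderiv_C, map_zero, zero_mul,
      Finset.sum_const_zero]
    exact hasDerivAt_const _ _
  | add p q hp hq =>
    simp only [map_add, add_mul, Finset.sum_add_distrib]
    exact hp.add hq
  | mul_X p j hp =>
    have hX : HasDerivAt (fun t : ℝ => y j + t * v j) (v j) t := by
      have := ((hasDerivAt_id t).mul_const (v j)).const_add (y j)
      simpa using this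
    have h1 := hp.mul hX
    have h2 : ∑ i, MvPolynomial.aeval (fun i => y i + t * v i)
        (MvPolynomial.pderiv i (p * MvPolynomial.X j)) * v i =
        (∑ i, MvPolynomial.aeval (fun i => y i + t * v i) (MvPolynomial.pderiv i p) * v i) *
          (y j + t * v j) +
        MvPolynomial.aeval (fun i => y i + t * v i) p * v j := by
      have h3 : ∀ i, MvPolynomial.aeval (fun i => y i + t * v i)
          (MvPolynomial.pderiv i (p * MvPolynomial.X j)) * v i =
          MvPolynomial.aeval (fun i => y i + t * v i) (MvPolynomial.pderiv i p) * v i *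
            (y j + t * v j) +
          (if i = j then MvPolynomial.aeval (fun i => y i + t * v i) p * v j else 0) := by
        intro i
        rw [MvPolynomial.pderiv_mul, map_add, map_mul, map_mul, MvPolynomial.aeval_X]
        by_cases hij : i = j
        · subst hij
          rw [if_pos rfl, MvPolynomial.pderiv_X_self, map_one]
          ring
        · rw [if_neg hij, MvPolynomial.pderiv_X_of_ne (Ne.symm hij), map_zero]
          ring
      rw [Finset.sum_congr rfl (fun i _ => h3 i), Finset.sum_add_distrib, Finset.sum_mul,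
        Finset.sum_ite_eq' Finset.univ j]
      simp
    rw [h2]
    simp only [map_mul, MvPolynomial.aeval_X]
    exact h1

/-- near-linearity of a polynomial from a Lipschitz bound for the gradient -/
theorem near_linear (f : MvPolynomial ι ℤ) (x y z : ι → ℝ) (K D : ℝ) (hD : ∀ i, |x i - y i| ≤ D)
    (hK : ∀ t : ℝ, 0 ≤ t → t ≤ 1 → ∀ i,
      |MvPolynomial.aeval (fun i => y i + t * (x i - y i)) (MvPolynomial.pderiv i f) -
        MvPolynomial.aeval z (MvPolynomial.pderiv i f)| ≤ K) (hK0 : 0 ≤ K) :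
    |MvPolynomial.aeval x f - MvPolynomial.aeval y f -
      ∑ i, MvPolynomial.aeval z (MvPolynomial.pderiv i f) * (x i - y i)| ≤
      Fintype.card ι * (K * D) := by
  obtain ⟨c, hc⟩ : ∃ c : ℝ,
    ∑ i, MvPolynomial.aeval z (MvPolynomial.pderiv i f) * (x i - y i) = c := ⟨_, rfl⟩
  have hder : ∀ t ∈ Set.Icc (0 : ℝ) 1, HasDerivWithinAt
      (fun t : ℝ => MvPolynomial.aeval (fun i => y i + t * (x i - y i)) f - t * c)
      ((∑ i, MvPolynomial.aeval (fun i => y i + t * (x i - y i)) (MvPolynomial.pderiv i f) *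
        (x i - y i)) - c) (Set.Icc 0 1) t := by
    intro t _
    have h1 := hasDerivAt_line f y (fun i => x i - y i) t
    have h2 : HasDerivAt (fun t : ℝ => t * c) c t := by
      simpa using (hasDerivAt_id t).mul_const c
    exact (h1.sub h2).hasDerivWithinAt
  have hbound : ∀ t ∈ Set.Ico (0 : ℝ) 1,
      ‖(∑ i, MvPolynomial.aeval (fun i => y i + t * (x i - y i)) (MvPolynomial.pderiv i f) *
        (x i - y i)) - c‖ ≤ Fintype.card ι * (K * D) := by
    intro t ht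
    rw [← hc, ← Finset.sum_sub_distrib, Real.norm_eq_abs]
    refine (Finset.abs_sum_le_sum_abs _ _).trans ?_
    have h1 : ∑ i, |MvPolynomial.aeval (fun i => y i + t * (x i - y i))
        (MvPolynomial.pderiv i f) * (x i - y i) -
        MvPolynomial.aeval z (MvPolynomial.pderiv i f) * (x i - y i)| ≤ ∑ _i : ι, K * D := by
      refine Finset.sum_le_sum (fun i _ => ?_)
      rw [← sub_mul, abs_mul]
      exact mul_le_mul (hK t ht.1 ht.2.le i) (hD i) (abs_nonneg _) hK0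
    refine h1.trans (le_of_eq ?_)
    rw [Finset.sum_const, Finset.card_univ, nsmul_eq_mul]
  have := norm_image_sub_le_of_norm_deriv_le_segment_01' hder hbound
  rw [Real.norm_eq_abs] at this
  have e1 : (fun i => y i + 1 * (x i - y i)) = x := by funext i; ring
  have e0 : (fun i => y i + 0 * (x i - y i)) = y := by funext i; ring
  simp only [e1, e0] at this
  rw [hc]
  refine le_trans (le_of_eq ?_) this
  congr 1
  ring

omit [Fintype ι] in
theorem aeval_cast (f : MvPolynomial ι ℤ) (x : ι → ℤ) :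
    MvPolynomial.aeval (fun i => (x i : ℝ)) f = ((MvPolynomial.eval x f : ℤ) : ℝ) := by
  induction f using MvPolynomial.induction_on with
  | C a => simp
  | add p q hp hq => simp only [map_add, hp, hq, Int.cast_add]
  | mul_X p j hp => simp only [map_mul, hp, MvPolynomial.aeval_X, MvPolynomial.eval_X, Int.cast_mul]

omit [Fintype ι] in
theorem seg_bound {P ξ x y r t : ℝ} (ht : 0 ≤ t) (ht1 : t ≤ 1) (hx : |x - P * ξ| ≤ r)
    (hy : |y - P * ξ| ≤ r) : |y + t * (x - y) - P * ξ| ≤ r := by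
  have e1 : y + t * (x - y) - P * ξ = (1 - t) * (y - P * ξ) + t * (x - P * ξ) := by ring
  rw [e1]
  refine (abs_add_le _ _).trans ?_
  rw [abs_mul, abs_mul, abs_of_nonneg ht, abs_of_nonneg (by linarith : (0 : ℝ) ≤ 1 - t)]
  have h1 := mul_le_mul_of_nonneg_left hy (by linarith : (0 : ℝ) ≤ 1 - t)
  have h2 := mul_le_mul_of_nonneg_left hx ht
  linarith

/-- one equation -/
theorem one_eq (e : ℕ) {C₁ C₂ A H P ρ' η θ : ℝ} {fc h : MvPolynomial ι ℤ} {ξ : ι → ℝ}
    (hC₁1 : 1 ≤ C₁)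
    (hC₁ : ∀ (f : MvPolynomial ι ℤ) (R : ℝ),
      f.IsHomogeneous (e + 1) → (∀ m, |((f.coeff m : ℤ) : ℝ)| ≤ R) → ∀ (B : ℝ), 0 ≤ B →
      (∀ x : ι → ℝ, (∀ i, |x i| ≤ B) → |MvPolynomial.aeval x f| ≤ C₁ * R * B ^ (e + 1)) ∧
      (∀ (x y : ι → ℝ) (δ : ℝ), 0 ≤ δ → (∀ i, |x i| ≤ B) → (∀ i, |y i| ≤ B) →
        (∀ i, |x i - y i| ≤ δ) →
        |MvPolynomial.aeval x f - MvPolynomial.aeval y f| ≤ C₁ * R * B ^ (e + 1 - 1) * δ))
    (hC₂ : ∀ (f : MvPolynomial ι ℤ) (R : ℝ),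
      f.IsHomogeneous (e + 2) → (∀ m, |((f.coeff m : ℤ) : ℝ)| ≤ R) → ∀ (B : ℝ), 0 ≤ B →
      (∀ x : ι → ℝ, (∀ i, |x i| ≤ B) → |MvPolynomial.aeval x f| ≤ C₂ * R * B ^ (e + 2)) ∧
      (∀ (x y : ι → ℝ) (δ : ℝ), 0 ≤ δ → (∀ i, |x i| ≤ B) → (∀ i, |y i| ≤ B) →
        (∀ i, |x i - y i| ≤ δ) →
        |MvPolynomial.aeval x f - MvPolynomial.aeval y f| ≤ C₂ * R * B ^ (e + 2 - 1) * δ))
    (hA1 : 2 * ((e : ℝ) + 2) * C₁ ≤ A) (hA2 : ((mons ι (e + 2)).card : ℝ) + 2 * C₂ ≤ A)
    (hA3 : (Fintype.card ι : ℝ) * (C₁ * (2 * ((e : ℝ) + 2)) * 2 ^ e * 2) ≤ A)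
    (hA4 : 2 * C₂ * 2 ^ (e + 1) ≤ A)
    (hH : 0 < H) (hP : 0 < P) (hη : 0 < η) (hρ' : 0 < ρ') (hρ'1 : ρ' ≤ 1 / 2)
    (hfc : IsF (e + 2) (2 * H) fc) (hh : IsF (e + 2) (2 * η * H) h) (hξ : ∀ i, |ξ i| ≤ 1)
    (hfξ : |MvPolynomial.aeval ξ fc| ≤ (mons ι (e + 2)).card * (η * H))
    (hlin : A * (ρ' + η) ≤ θ) :
    |MvPolynomial.aeval (fun i => P * ξ i) (fc + h) / (H * P ^ (e + 1))| ≤ A * η * P ∧
    (∀ i, |(MvPolynomial.aeval ξ (MvPolynomial.pderiv i fc) : ℝ) / H| ≤ A) ∧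
    ∀ x y : ι → ℝ, (∀ i, |x i - P * ξ i| ≤ 2 * (ρ' * P)) →
      (∀ i, |y i - P * ξ i| ≤ 2 * (ρ' * P)) → ∀ D : ℝ, 0 ≤ D → (∀ i, |x i - y i| ≤ D) →
      |MvPolynomial.aeval x (fc + h) / (H * P ^ (e + 1)) -
        MvPolynomial.aeval y (fc + h) / (H * P ^ (e + 1)) -
        ∑ i, (MvPolynomial.aeval ξ (MvPolynomial.pderiv i fc) : ℝ) / H * (x i - y i)| ≤ θ * D := by
  have hQ : 0 < H * P ^ (e + 1) := by positivity
  refine ⟨?_, fun i => ?_, ?_⟩
  · rw [aeval_smul_form (hfc.1.add hh.1), abs_div, abs_of_pos hQ, div_le_iff₀ hQ, abs_mul,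
      abs_of_pos (by positivity), map_add]
    have h1 := (hC₂ _ _ hh.1 hh.2 1 (by norm_num)).1 ξ hξ
    rw [one_pow, mul_one] at h1
    have h2 := (abs_add_le (MvPolynomial.aeval ξ fc) (MvPolynomial.aeval ξ h)).trans
      (add_le_add hfξ h1)
    have h3 := mul_le_mul_of_nonneg_left h2 (by positivity : 0 ≤ P ^ (e + 2))
    have h4 := mul_le_mul_of_nonneg_right hA2 (by positivity : 0 ≤ η * H * P ^ (e + 2))
    refine h3.trans ?_
    calc P ^ (e + 2) * (((mons ι (e + 2)).card : ℝ) * (η * H) + C₂ * (2 * η * H))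
        = (((mons ι (e + 2)).card : ℝ) + 2 * C₂) * (η * H * P ^ (e + 2)) := by ring
      _ ≤ A * (η * H * P ^ (e + 2)) := h4
      _ = A * η * P * (H * P ^ (e + 1)) := by rw [pow_succ P (e + 1)]; ring
  · rw [abs_div, abs_of_pos hH, div_le_iff₀ hH]
    have h1 := (hC₁ _ _ (hfc.pderiv i).1 (hfc.pderiv i).2 1 (by norm_num)).1 ξ hξ
    rw [one_pow, mul_one] at h1
    refine h1.trans ?_
    have h2 := mul_le_mul_of_nonneg_right hA1 hH.le
    refine le_trans (le_of_eq ?_) h2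
    push_cast
    ring
  · intro x y hx hy D hD hxy
    have hPξ : ∀ i, |P * ξ i| ≤ P := by
      intro i
      rw [abs_mul, abs_of_pos hP]
      exact mul_le_of_le_one_right hP.le (hξ i)
    have hbd : ∀ v : ι → ℝ, (∀ i, |v i - P * ξ i| ≤ 2 * (ρ' * P)) → ∀ i, |v i| ≤ 2 * P := by
      intro v hv i
      have h1 : v i = (v i - P * ξ i) + P * ξ i := by ring
      rw [h1]
      have h2 := mul_le_mul_of_nonneg_right hρ'1 hP.le
      refine (abs_add_le _ _).trans ?_
      have h3 := hv i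
      have h4 := hPξ i
      linarith
    have h1 := near_linear fc x y (fun i => P * ξ i)
      (C₁ * (((e + 1 : ℕ) + 1 : ℝ) * (2 * H)) * (2 * P) ^ (e + 1 - 1) * (2 * (ρ' * P))) D hxy
      (by
        intro t ht ht1 i
        exact (hC₁ _ _ (hfc.pderiv i).1 (hfc.pderiv i).2 (2 * P) (by positivity)).2 _ _ _
          (by positivity)
          (hbd _ (fun i => seg_bound ht ht1 (hx i) (hy i)))
          (fun i => (hPξ i).trans (by linarith))
          (fun i => seg_bound ht ht1 (hx i) (hy i)))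
      (by positivity)
    have h2 := (hC₂ _ _ hh.1 hh.2 (2 * P) (by positivity)).2 x y D hD (hbd _ hx) (hbd _ hy) hxy
    have h3 : MvPolynomial.aeval x (fc + h) / (H * P ^ (e + 1)) -
        MvPolynomial.aeval y (fc + h) / (H * P ^ (e + 1)) -
        ∑ i, (MvPolynomial.aeval ξ (MvPolynomial.pderiv i fc) : ℝ) / H * (x i - y i) =
        ((MvPolynomial.aeval x fc - MvPolynomial.aeval y fc -
          ∑ i, MvPolynomial.aeval (fun i => P * ξ i) (MvPolynomial.pderiv i fc) * (x i - y i)) +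
          (MvPolynomial.aeval x h - MvPolynomial.aeval y h)) / (H * P ^ (e + 1)) := by
      have h4 : ∑ i, (MvPolynomial.aeval ξ (MvPolynomial.pderiv i fc) : ℝ) / H * (x i - y i) =
          (∑ i, MvPolynomial.aeval (fun i => P * ξ i) (MvPolynomial.pderiv i fc) *
            (x i - y i)) / (H * P ^ (e + 1)) := by
        rw [Finset.sum_div]
        refine Finset.sum_congr rfl (fun i _ => ?_)
        rw [aeval_smul_form (hfc.pderiv i).1]
        field_simp
      rw [h4, map_add, map_add]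
      ring
    rw [h3, abs_div, abs_of_pos hQ, div_le_iff₀ hQ]
    refine (abs_add_le _ _).trans ((add_le_add h1 h2).trans ?_)
    have h5 := mul_le_mul_of_nonneg_right hA3 (by positivity : 0 ≤ ρ' * (H * P ^ (e + 1)) * D)
    have h6 := mul_le_mul_of_nonneg_right hA4 (by positivity : 0 ≤ η * (H * P ^ (e + 1)) * D)
    have h7 := mul_le_mul_of_nonneg_right hlin (by positivity : 0 ≤ (H * P ^ (e + 1)) * D)
    have h8 : (Fintype.card ι : ℝ) * (C₁ * (((e + 1 : ℕ) + 1 : ℝ) * (2 * H)) *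
        (2 * P) ^ (e + 1 - 1) * (2 * (ρ' * P)) * D) =
        (Fintype.card ι : ℝ) * (C₁ * (2 * ((e : ℝ) + 2)) * 2 ^ e * 2) *
          (ρ' * (H * P ^ (e + 1)) * D) := by
      rw [Nat.add_sub_cancel, mul_pow, pow_succ P e]
      push_cast
      ring
    have h9 : C₂ * (2 * η * H) * (2 * P) ^ (e + 2 - 1) * D =
        2 * C₂ * 2 ^ (e + 1) * (η * (H * P ^ (e + 1)) * D) := by
      have : e + 2 - 1 = e + 1 := rfl
      rw [this, mul_pow]
      ring
    rw [h8, h9]
    calc _ ≤ A * (ρ' * (H * P ^ (e + 1)) * D) + A * (η * (H * P ^ (e + 1)) * D) :=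
          add_le_add h5 h6
      _ = A * (ρ' + η) * ((H * P ^ (e + 1)) * D) := by ring
      _ ≤ θ * ((H * P ^ (e + 1)) * D) := h7
      _ = θ * D * (H * P ^ (e + 1)) := by ring

theorem real_of_slab (ι : Type*) [Fintype ι] {s : ℕ} (e : Fin s → ℕ)
    (hV : Pool.Agent.Y716.C.SlabLemma ι s) : Pool.Agent.Y716.C.RealStmt ι e := by
  classical
  intro τ γ η₀ hτ hτ2 hγ hγ1 hη₀
  obtain ⟨θ₀, hθ₀, hθ₀1, hV⟩ := hV τ hτ hτ2
  choose C₁ hC₁1 hC₁ using fun j : Fin s => form_bounds (ι := ι) (e j + 1)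
  choose C₂ hC₂1 hC₂ using fun j : Fin s => form_bounds (ι := ι) (e j + 2)
  -- constant
  obtain ⟨A, hA1, hA⟩ : ∃ A : ℝ, 1 ≤ A ∧ ∀ j,
      2 * ((e j : ℝ) + 2) * C₁ j ≤ A ∧ ((mons ι (e j + 2)).card : ℝ) + 2 * C₂ j ≤ A ∧
      (Fintype.card ι : ℝ) * (C₁ j * (2 * ((e j : ℝ) + 2)) * 2 ^ (e j) * 2) ≤ A ∧
      2 * C₂ j * 2 ^ (e j + 1) ≤ A := by
    have h1 : ∀ j, 0 ≤ C₁ j := fun j => by linarith [hC₁1 j]
    have h2 : ∀ j, 0 ≤ C₂ j := fun j => by linarith [hC₂1 j]
    have a1 : ∀ j, 0 ≤ 2 * ((e j : ℝ) + 2) * C₁ j := fun j => by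
      have := h1 j; positivity
    have a2 : ∀ j, 0 ≤ ((mons ι (e j + 2)).card : ℝ) + 2 * C₂ j := fun j => by
      have := h2 j; positivity
    have a3 : ∀ j, 0 ≤ (Fintype.card ι : ℝ) * (C₁ j * (2 * ((e j : ℝ) + 2)) * 2 ^ (e j) * 2) :=
      fun j => by have := h1 j; positivity
    have a4 : ∀ j, 0 ≤ 2 * C₂ j * 2 ^ (e j + 1) := fun j => by have := h2 j; positivity
    refine ⟨1 + ∑ j, (2 * ((e j : ℝ) + 2) * C₁ j + (((mons ι (e j + 2)).card : ℝ) + 2 * C₂ j) +
      (Fintype.card ι : ℝ) * (C₁ j * (2 * ((e j : ℝ) + 2)) * 2 ^ (e j) * 2) +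
      2 * C₂ j * 2 ^ (e j + 1)), ?_, fun j => ?_⟩
    · have : 0 ≤ ∑ j, (2 * ((e j : ℝ) + 2) * C₁ j + (((mons ι (e j + 2)).card : ℝ) + 2 * C₂ j) +
        (Fintype.card ι : ℝ) * (C₁ j * (2 * ((e j : ℝ) + 2)) * 2 ^ (e j) * 2) +
        2 * C₂ j * 2 ^ (e j + 1)) :=
        Finset.sum_nonneg (fun j _ => by linarith [a1 j, a2 j, a3 j, a4 j])
      linarith
    · have := Finset.single_le_sum (f := fun j => (2 * ((e j : ℝ) + 2) * C₁ j +
        (((mons ι (e j + 2)).card : ℝ) + 2 * C₂ j) +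
        (Fintype.card ι : ℝ) * (C₁ j * (2 * ((e j : ℝ) + 2)) * 2 ^ (e j) * 2) +
        2 * C₂ j * 2 ^ (e j + 1))) (fun j _ => by linarith [a1 j, a2 j, a3 j, a4 j])
        (Finset.mem_univ j)
      have b1 := a1 j
      have b2 := a2 j
      have b3 := a3 j
      have b4 := a4 j
      refine ⟨?_, ?_, ?_, ?_⟩ <;> linarith
  have hA0 : 0 < A := by linarith
  obtain ⟨κ, hκ, hκ1, hV⟩ := hV A γ hA1 hγ hγ1
  -- the parameters
  obtain ⟨ρ', hρ'⟩ : ∃ ρ' : ℝ, ρ' = min (1 / 2) (min η₀ (θ₀ * γ / (2 * A))) := ⟨_, rfl⟩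
  have hρ'0 : 0 < ρ' := by
    rw [hρ']
    exact lt_min (by norm_num) (lt_min hη₀ (by positivity))
  have hρ'1 : ρ' ≤ 1 / 2 := by rw [hρ']; exact min_le_left _ _
  have hρ'2 : ρ' ≤ η₀ := by rw [hρ']; exact (min_le_right _ _).trans (min_le_left _ _)
  have hρ'3 : ρ' ≤ θ₀ * γ / (2 * A) := by
    rw [hρ']; exact (min_le_right _ _).trans (min_le_right _ _)
  have hρ'4 : A * (2 * ρ') ≤ θ₀ * γ := by
    rw [le_div_iff₀ (by positivity)] at hρ'3
    linarith
  obtain ⟨ρ, hρ⟩ : ∃ ρ : ℝ, ρ = κ * ρ' := ⟨_, rfl⟩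
  have hρ0 : 0 < ρ := by rw [hρ]; positivity
  have hρρ' : ρ ≤ ρ' := by rw [hρ]; exact mul_le_of_le_one_left hρ'0.le hκ1
  obtain ⟨η, hη⟩ : ∃ η : ℝ, η = κ * ρ' / A := ⟨_, rfl⟩
  have hη0 : 0 < η := by rw [hη]; positivity
  have hAη : A * η = κ * ρ' := by rw [hη]; field_simp
  have hηρ : η ≤ ρ := by
    rw [hη, hρ]
    exact div_le_self (by positivity) hA1
  refine ⟨ρ, ρ', η, κ * η, hρ0, hρρ', hρ'1, hρ'2, hη0, by linarith, by linarith,
    by positivity, ?_⟩
  intro δ hδ hδ1 H P fc ξ a Li hH hP hR h hh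
  obtain ⟨hform, hξ, ⟨r₀, hr₀⟩, hfξ, ha, hLi, hLiγ⟩ := hR
  have hkey := fun j => one_eq (e j) (hC₁1 j) (hC₁ j) (hC₂ j) (hA j).1 (hA j).2.1
    (hA j).2.2.1 (hA j).2.2.2 hH hP hη0 hρ'0 hρ'1 (hform j) (hh j) hξ (hfξ j)
    (θ := θ₀ * γ) (le_trans (mul_le_mul_of_nonneg_left (by linarith) hA0.le) hρ'4)
  intro M hM hMM c X hX
  have hδη : δ * η ≤ η := mul_le_of_le_one_left hη0.le hδ1
  have h1 := hV (fun x j => MvPolynomial.aeval x (fc j + h j) / (H * P ^ (e j + 1)))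
    (Matrix.of fun j i => (MvPolynomial.aeval ξ (MvPolynomial.pderiv i (fc j)) : ℝ) / H) a Li
    (fun i => P * ξ i) (ρ * P) (ρ' * P) (fun _ => δ * η * P) ha (by positivity)
    (by rw [hρ]; exact le_of_eq (by ring))
    (by
      intro j
      refine ⟨by positivity, ?_⟩
      have h2 : η ≤ κ * ρ' := by rw [← hρ]; exact hηρ
      have h3 := mul_le_mul_of_nonneg_right (hδη.trans h2) hP.le
      linarith)
    (by
      intro j
      refine (hkey j).1.trans ?_
      rw [hAη]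
      exact le_of_eq (by ring))
    (fun j i => (hkey j).2.1 i)
    hLi hLiγ
    (by
      intro x y hx hy D hD j
      exact (hkey j).2.2 x y hx hy D ((abs_nonneg _).trans (hD r₀)) hD)
    M hM
    (by
      refine hMM.trans ?_
      have h3 : δ * η ≤ ρ := hδη.trans hηρ
      have h4 := mul_le_mul_of_nonneg_left h3 (by positivity : 0 ≤ κ * P)
      linarith)
    (by
      intro j
      refine hMM.trans (le_of_eq (by ring)))
    c X
    (by
      intro x
      rw [hX x]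
      refine and_congr_right (fun _ => and_congr ?_ ?_)
      · refine forall_congr' (fun i => ?_)
        simp only [wdS]
        by_cases hi : ∃ j, a j = i
        · rw [if_pos hi, if_pos hi, mul_comm P ρ']
        · rw [if_neg hi, if_neg hi, mul_comm P ρ]
      · refine forall_congr' (fun j => ?_)
        have hQ : 0 < H * P ^ (e j + 1) := by positivity
        rw [abs_div, abs_of_pos hQ, div_le_iff₀ hQ, aeval_cast]
        have : δ * (η * H) * P ^ (e j + 2) = δ * η * P * (H * P ^ (e j + 1)) := by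
          rw [pow_succ P (e j + 1)]; ring
        show |_| ≤ δ * (η * H) * P ^ (e j + 2) ↔ _
        rw [this])
  have h2 : (2 * (ρ * P)) ^ (Fintype.card ι - s) * (∏ _j : Fin s, (2 * (δ * η * P))) * |Li.det| =
      (2 * ρ * P) ^ (Fintype.card ι - s) * (2 * δ * η * P) ^ s * |Li.det| := by
    rw [Finset.prod_const, Finset.card_univ, Fintype.card_fin]
    ring
  rw [h2] at h1
  exact h1

end Pool.Agent.Y43.C
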